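import Mathlib.Algebra.Category.Grp.AB
import Mathlib.Algebra.Category.Ring.Limits
import Mathlib.AlgebraicGeometry.FunctionField
import Mathlib.AlgebraicGeometry.Morphisms.Flat
import Mathlib.AlgebraicGeometry.Morphisms.Proper
import Mathlib.AlgebraicGeometry.Morphisms.Smooth
import Mathlib.Analysis.Complex.Basic
import Mathlib.CategoryTheory.Abelian.GrothendieckAxioms.Sheaf
import Mathlib.CategoryTheory.Abelian.GrothendieckCategory.HasExt
import Mathlib.CategoryTheory.Sites.SheafCohomology.Basic
import Mathlib.RingTheory.AdicCompletion.Completeness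
import Mathlib.RingTheory.AdicCompletion.Noetherian
import Mathlib.RingTheory.PowerSeries.Ideal
import Mathlib.RingTheory.PowerSeries.Inverse
import Mathlib.RingTheory.RegularLocalRing.Defs

/-!
Deformations of a complete surface singularity, rational singularities, P-modifications and their
`ℚ`-Gorenstein smoothings.
-/

open AlgebraicGeometry CategoryTheory TopologicalSpace IsLocalRing

noncomputable section

namespace Pool.Agent.MP_648617_ag

/-- Complete local Noetherian `ℂ`-algebras with residue field `ℂ`. -/
class IsGerm (R : Type) [CommRing R] [Algebra ℂ R] : Prop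
    extends IsLocalRing R, IsNoetherian R R where
  complete : IsAdicComplete (maximalIdeal R) R
  res : ∀ r : R, ∃ c : ℂ, r - algebraMap ℂ R c ∈ maximalIdeal R

attribute [instance] IsGerm.complete

/-- The formal disc is a germ. -/
instance : IsGerm (PowerSeries ℂ) where
  complete := by rw [PowerSeries.maximalIdeal_eq_span_X]; infer_instance
  res r := ⟨PowerSeries.constantCoeff r, by
    rw [PowerSeries.maximalIdeal_eq_span_X, Ideal.mem_span_singleton, PowerSeries.X_dvd_iff]
    simp⟩

/-- A deformation of `A` over the germ `R`: a flat `R`-algebra `O` with `O / m_R O = A`. -/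
structure Defo (A : Type) [CommRing A] [Algebra ℂ A] (R : Type) [CommRing R] [Algebra ℂ R]
    [IsGerm R] where
  O : Type
  [ring : CommRing O]
  [alg : Algebra ℂ O]
  [germ : IsGerm O]
  [algR : Algebra R O]
  [tower : IsScalarTower ℂ R O]
  [flat : Module.Flat R O]
  π : O →ₐ[ℂ] A
  surj : Function.Surjective π
  ker : RingHom.ker π = (maximalIdeal R).map (algebraMap R O)

attribute [instance] Defo.ring Defo.alg Defo.germ Defo.algR Defo.tower Defo.flat

variable {A : Type} [CommRing A] [Algebra ℂ A]
  {R : Type} [CommRing R] [Algebra ℂ R] [IsGerm R] {S : Type} [CommRing S] [Algebra ℂ S] [IsGerm S]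

/-- A morphism of deformations: `E` is induced from `D` along `base`. -/
structure Defo.Hom (D : Defo A R) (E : Defo A S) where
  base : R →ₐ[ℂ] S
  tot : D.O →ₐ[ℂ] E.O
  comm : ∀ r, tot (algebraMap R D.O r) = algebraMap S E.O (base r)
  red : ∀ o, E.π (tot o) = D.π o

/-- Versality: a morphism to the restriction of `E` to a closed subgerm of the base lifts to
`E`. -/
def Defo.IsVersal (D : Defo A R) : Prop :=
  ∀ (S : Type) [CommRing S] [Algebra ℂ S] [IsGerm S] (S' : Type) [CommRing S'] [Algebra ℂ S']
    [IsGerm S'] (E : Defo A S) (E' : Defo A S') (p : E.Hom E') (f : D.Hom E'),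
    Function.Surjective p.base →
      ∃ g : D.Hom E, p.base.comp g.base = f.base ∧ p.tot.comp g.tot = f.tot

/-- Miniversality: versal, and the classifying map is unique to first order. -/
def Defo.IsMiniversal (D : Defo A R) : Prop :=
  D.IsVersal ∧ ∀ (S : Type) [CommRing S] [Algebra ℂ S] [IsGerm S] (E : Defo A S)
    (g g' : D.Hom E), maximalIdeal S ^ 2 = ⊥ → g.base = g'.base

/-- The structure sheaf as an abelian sheaf. -/
def addSheaf (Y : Scheme.{0}) : Sheaf (Opens.grothendieckTopology Y) AddCommGrpCat.{0} :=
  (sheafCompose _ (forget₂ CommRingCat RingCat ⋙ forget₂ RingCat AddCommGrpCat)).obj Y.sheaf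

theorem hasExt (Y : Scheme.{0}) :
    HasExt.{0} (Sheaf (Opens.grothendieckTopology Y) AddCommGrpCat.{0}) := inferInstance

/-- `H¹(Y, 𝒪_Y) = 0`. -/
def H1Zero (Y : Scheme.{0}) : Prop :=
  haveI := hasExt Y
  Subsingleton ((addSheaf Y).H 1)

/-- A proper modification: the source is integral, the map is proper and an isomorphism over a
nonempty open set. -/
def IsModification {Y X : Scheme.{0}} (f : Y ⟶ X) : Prop :=
  IsIntegral Y ∧ IsProper f ∧ ∃ V : X.Opens, V ≠ ⊥ ∧ IsIso (f ∣_ V)

/-- `Spec A₀` is a normal affine complex surface with rational singularities. -/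
def IsRationalSurface (A₀ : Type) [CommRing A₀] [Algebra ℂ A₀] : Prop :=
  Algebra.FiniteType ℂ A₀ ∧ IsDomain A₀ ∧ IsIntegrallyClosed A₀ ∧ ringKrullDim A₀ = 2 ∧
    ∃ (Y : Scheme.{0}) (f : Y ⟶ Spec (.of A₀)), IsModification f ∧
      Smooth (f ≫ Spec.map (CommRingCat.ofHom (algebraMap ℂ A₀))) ∧ H1Zero Y

section Forms

variable {B O K : Type} [CommRing B] [CommRing O] [Field K]

/-- Rational vector fields on `Spec O` relative to `B`: derivations of `K` that kill `B` and send
`O` into `O` after multiplication by a nonzero element. -/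
def IsField (β : B →+* O) (ι : O →+* K) (D : Derivation ℤ K K) : Prop :=
  (∀ b, D (ι (β b)) = 0) ∧ ∃ c : O, c ≠ 0 ∧ ∀ o, ι c * D (ι o) ∈ ι.range

/-- The rational pluricanonical form `h (da ∧ db) ^ n`. -/
structure Form (K : Type) where
  n : ℕ
  h : K
  a : K
  b : K

/-- The value of a form on two vector fields. -/
def Form.val (e : Form K) (D E : Derivation ℤ K K) : K :=
  e.h * (D e.a * E e.b - D e.b * E e.a) ^ e.n

/-- The vector fields that are regular at the local ring `W`. -/
def Tangent (β : B →+* O) (ι : O →+* K) (W : Subring K) (D : Derivation ℤ K K) : Prop :=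
  IsField β ι D ∧ ∀ w ∈ W, D w ∈ W

/-- The form is regular at `W`. -/
def Form.RegularAt (e : Form K) (β : B →+* O) (ι : O →+* K) (W : Subring K) : Prop :=
  ∀ D E, Tangent β ι W D → Tangent β ι W E → e.val D E ∈ W

/-- The form generates the pluricanonical sheaf at `W`. -/
def Form.GeneratesAt (e : Form K) (β : B →+* O) (ι : O →+* K) (W : Subring K) : Prop :=
  e.RegularAt β ι W ∧ ∃ D E, Tangent β ι W D ∧ Tangent β ι W E ∧ ∃ u ∈ W, e.val D E * u = 1

end Forms

/-- The map from `O` to the function field of an integral scheme over `O`. -/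
def toField {O : Type} [CommRing O] {W : Scheme.{0}} [IsIntegral W] (F : W ⟶ Spec (.of O)) :
    O →+* W.functionField :=
  ((Scheme.ΓSpecIso (.of O)).inv ≫ F.appTop ≫
    W.presheaf.germ ⊤ (genericPoint W) (Opens.mem_top _)).hom

/-- The local ring at `y` inside the function field. -/
def localRing {W : Scheme.{0}} [IsIntegral W] (y : W) : Subring W.functionField :=
  (algebraMap (W.presheaf.stalk y) W.functionField).range

section Canonical

variable {B O : Type} [CommRing B] [CommRing O] (β : B →+* O) {W U : Scheme.{0}} [IsIntegral W]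
  [IsIntegral U] (F : W ⟶ Spec (.of O)) (j : U ⟶ W)

/-- The form generates the reflexive sheaf `ω^[n]` of the normal scheme `W` near `y`: it generates
at all points of codimension one of a neighbourhood of `y`. -/
def Form.GeneratesNear (e : Form W.functionField) (y : W) : Prop :=
  ∃ V : W.Opens, y ∈ V ∧
    ∀ z ∈ V, Order.coheight z = 1 → e.GeneratesAt β (toField F) (localRing z)

/-- The relative canonical divisor of `W` over `B` is `ℚ`-Cartier: some `ω^[n]` is invertible. -/
def QGorenstein : Prop :=
  ∃ n, 0 < n ∧ ∀ y : W, ∃ e : Form W.functionField, e.n = n ∧ e.GeneratesNear β F y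

/-- Write the form `ε` as `φ e`, with `e` a generator of `ω^[n]` near the point `y` of `U` and `φ` a
function that is regular at the generic point of `U`; then `r` is the restriction of `φ` to `U`. So
`r` is the local equation at `y` of the restriction of `ε` to `U`. -/
def Form.Restricts (ε : Form W.functionField) (y : U) (r : U.functionField) : Prop :=
  ∃ (e : Form W.functionField) (φ : W.presheaf.stalk (j (genericPoint U))),
    e.n = ε.n ∧ e.GeneratesNear β F (j y) ∧
    (∀ D E, IsField β (toField F) D → IsField β (toField F) E →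
      ε.val D E = algebraMap _ W.functionField φ * e.val D E) ∧
    j.stalkMap (genericPoint U) φ = r

/-- The restriction to `U` of the relative canonical divisor of `W` is ample: every point of `U` has
an affine neighbourhood `N` that is the non-vanishing locus of a global section on `U` of the
restriction of an invertible `ω^[n]`, `n > 0`. -/
def AmpleOnFibre : Prop :=
  ∀ y : U, ∃ (ε : Form W.functionField) (N : U.Opens), 0 < ε.n ∧ y ∈ N ∧ IsAffineOpen N ∧
    ∀ y' : U, ∃ r : U.presheaf.stalk y',
      ε.Restricts β F j y' (algebraMap _ U.functionField r) ∧ (y' ∈ N ↔ IsUnit r)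

end Canonical

/-- The one-parameter deformation `E` of `A` is the blow-down of a `ℚ`-Gorenstein smoothing `W` of
`U`, and the canonical divisor of `U` (by adjunction the restriction of the relative canonical
divisor of `W`) is ample. -/
def IsQGSmoothing {U : Scheme.{0}} [IsIntegral U] (f : U ⟶ Spec (.of A))
    (E : Defo A (PowerSeries ℂ)) : Prop :=
  ∃ (W : Scheme.{0}) (_ : IsIntegral W) (F : W ⟶ Spec (.of E.O)) (j : U ⟶ W),
    IsPullback j f F (Spec.map (CommRingCat.ofHom E.π.toRingHom)) ∧ IsModification F ∧
    IsIso F.appTop ∧ Flat (F ≫ Spec.map (CommRingCat.ofHom (algebraMap (PowerSeries ℂ) E.O))) ∧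
    (∀ y : W, IsIntegrallyClosed (W.presheaf.stalk y)) ∧
    (∀ y : W, algebraMap (PowerSeries ℂ) E.O PowerSeries.X ∉ (F y).asIdeal →
      IsRegularLocalRing (W.presheaf.stalk y)) ∧
    QGorenstein (algebraMap (PowerSeries ℂ) E.O) F ∧
    AmpleOnFibre (algebraMap (PowerSeries ℂ) E.O) F j

/-- `f : U ⟶ Spec A` is a P-modification: a proper modification with `f_* 𝒪_U = 𝒪`,
`R¹ f_* 𝒪_U = 0`, ample canonical divisor and a `ℚ`-Gorenstein smoothing. -/
def IsPModification {U : Scheme.{0}} [IsIntegral U] (f : U ⟶ Spec (.of A)) : Prop :=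
  IsModification f ∧ IsIso f.appTop ∧ H1Zero U ∧ ∃ E, IsQGSmoothing f E

/-- The blow-downs of the `ℚ`-Gorenstein smoothings of `U` give arcs that are Zariski dense in the
closed subset `V(q)` of the base of `D`. -/
def Parametrizes {U : Scheme.{0}} [IsIntegral U] (f : U ⟶ Spec (.of A)) (D : Defo A R)
    (q : Ideal R) : Prop :=
  ∀ δ ∉ q, ∃ (E : Defo A (PowerSeries ℂ)) (γ : D.Hom E),
    IsQGSmoothing f E ∧ (∀ r ∈ q, γ.base r = 0) ∧ γ.base δ ≠ 0

end Pool.Agent.MP_648617_ag
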